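import Mathlib

set_option autoImplicit false

namespace Pool.Agent.Results.MP_ea77cd_an.MBasisNoLUR

open Filter Topology Set ENNReal

/-- An extended Markushevich basis `(x i, f i)`, `i ∈ ι`, of the normed space `E` over `𝕜`. -/
structure IsMarkushevichBasis (𝕜 : Type*) [RCLike 𝕜] {E : Type*} [NormedAddCommGroup E]
    [NormedSpace 𝕜 E] {ι : Type*} (x : ι → E) (f : ι → (E →L[𝕜] 𝕜)) : Prop where
  apply_self : ∀ i, f i (x i) = 1
  apply_ne : ∀ i j, i ≠ j → f i (x j) = 0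
  dense : closure (Submodule.span 𝕜 (Set.range x) : Set E) = Set.univ
  total : ∀ z : E, (∀ i, f i z = 0) → z = 0

/-- `N` is (the function of) an equivalent norm on `E`. -/
def IsEquivalentNorm (𝕜 : Type*) [RCLike 𝕜] {E : Type*} [NormedAddCommGroup E]
    [NormedSpace 𝕜 E] (N : Seminorm 𝕜 E) : Prop :=
  ∃ a b : ℝ, 0 < a ∧ 0 < b ∧ ∀ x : E, a * ‖x‖ ≤ N x ∧ N x ≤ b * ‖x‖

/-- `N` is locally uniformly convex. -/
def IsLUR (𝕜 : Type*) [RCLike 𝕜] {E : Type*} [NormedAddCommGroup E]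
    [NormedSpace 𝕜 E] (N : Seminorm 𝕜 E) : Prop :=
  ∀ (x : E) (y : ℕ → E), N x = 1 → (∀ n, N (y n) = 1) →
    Tendsto (fun n => N (y n + x)) atTop (𝓝 2) → Tendsto (fun n => N (y n - x)) atTop (𝓝 0)

section NoLUR

variable {𝕜 : Type*} [RCLike 𝕜]

/-- the space of bounded sequences -/
abbrev Linf (𝕜 : Type*) [RCLike 𝕜] := lp (fun _ : ℕ => 𝕜) ∞

/-- supported in `A` -/
def SuppIn (A : Set ℕ) (z : Linf 𝕜) : Prop := ∀ m, m ∉ A → z m = 0

lemma removal (N : Seminorm 𝕜 (Linf 𝕜)) {b : ℝ} (hb : 0 < b) (hN : ∀ x, N x ≤ b * ‖x‖)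
    (y : Linf 𝕜) {A : Set ℕ} (hA : A.Infinite) {ε : ℝ} (hε : 0 < ε) (n₀ : ℕ) :
    ∃ A' : Set ℕ, A' ⊆ A ∧ A'.Infinite ∧ (∀ m ∈ A', n₀ ≤ m) ∧
      ∀ z : Linf 𝕜, SuppIn A' z → ‖z‖ ≤ 2 → N y - ε ≤ N (y + z) := by
  classical
  by_contra hcon
  push Not at hcon
  -- disjoint infinite subsets
  have hA2 : (A ∩ Ici n₀).Infinite := by
    have : A ⊆ (A ∩ Ici n₀) ∪ Iio n₀ := by
      intro m hm
      rcases le_or_gt n₀ m with h | h
      · exact Or.inl ⟨hm, h⟩
      · exact Or.inr h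
    intro hfin
    exact hA ((hfin.union (finite_Iio n₀)).subset this)
  let e : ℕ → ℕ := Nat.nth (fun m => m ∈ A ∩ Ici n₀)
  have he : Function.Injective e := Nat.nth_injective hA2
  have hemem : ∀ i, e i ∈ A ∩ Ici n₀ := fun i => Nat.nth_mem_of_infinite hA2 i
  let B : ℕ → Set ℕ := fun j => range (fun i : ℕ => e (Nat.pair j i))
  have hBsub : ∀ j, B j ⊆ A ∩ Ici n₀ := by
    rintro j _ ⟨i, rfl⟩
    exact hemem _
  have hBinf : ∀ j, (B j).Infinite := by
    intro j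
    apply infinite_range_of_injective
    intro i i' h
    have := he h
    exact (Nat.pair_eq_pair.1 this).2
  have hBdisj : ∀ j j', j ≠ j' → Disjoint (B j) (B j') := by
    intro j j' hjj
    rw [Set.disjoint_left]
    rintro _ ⟨i, rfl⟩ ⟨i', h⟩
    have := he h
    exact hjj (Nat.pair_eq_pair.1 this).1.symm
  have hz : ∀ j, ∃ z : Linf 𝕜, SuppIn (B j) z ∧ ‖z‖ ≤ 2 ∧ N (y + z) < N y - ε := by
    intro j
    obtain ⟨z, h1, h2, h3⟩ := hcon (B j) ((hBsub j).trans inter_subset_left) (hBinf j)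
      (fun m hm => (hBsub j hm).2)
    exact ⟨z, h1, h2, h3⟩
  choose z hz1 hz2 hz3 using hz
  obtain ⟨J, hJ⟩ := exists_nat_gt (2 * b / ε)
  have hJpos : 0 < (J : ℝ) := lt_of_le_of_lt (by positivity) hJ
  let w : Linf 𝕜 := ∑ j ∈ Finset.range J, z j
  have hw : ‖w‖ ≤ 2 := by
    apply lp.norm_le_of_forall_le (by norm_num)
    intro m
    have hcoe : w m = ∑ j ∈ Finset.range J, z j m := by
      simp only [w, lp.coeFn_sum, Finset.sum_apply]
    rw [hcoe]
    by_cases hm : ∃ j ∈ Finset.range J, m ∈ B j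
    · obtain ⟨j, hj, hmj⟩ := hm
      rw [Finset.sum_eq_single_of_mem j hj]
      · exact (lp.norm_apply_le_norm (by simp) (z j) m).trans (hz2 j)
      · intro j' _ hjj
        apply hz1 j' m
        exact fun h => Set.disjoint_left.1 (hBdisj j' j hjj) h hmj
    · rw [Finset.sum_eq_zero]
      · simp
      · intro j hj
        apply hz1 j m
        exact fun h => hm ⟨j, hj, h⟩
  have h1 : N y - 2 * b / J ≤ N (y + (J : 𝕜)⁻¹ • w) := by
    have h2 : N y ≤ N (y + (J : 𝕜)⁻¹ • w) + N ((J : 𝕜)⁻¹ • w) := by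
      have := map_add_le_add N (y + (J : 𝕜)⁻¹ • w) (-((J : 𝕜)⁻¹ • w))
      rw [add_neg_cancel_right, map_neg_eq_map] at this
      exact this
    have h3 : N ((J : 𝕜)⁻¹ • w) ≤ 2 * b / J := by
      rw [map_smul_eq_mul, norm_inv, RCLike.norm_natCast, inv_mul_eq_div]
      apply div_le_div_of_nonneg_right _ hJpos.le
      have := hN w
      nlinarith
    linarith
  have h4 : N (y + (J : 𝕜)⁻¹ • w) ≤ N y - ε := by
    have hJ0 : (J : 𝕜) ≠ 0 := by
      have : (J : ℝ) ≠ 0 := hJpos.ne'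
      exact_mod_cast this
    have h5 : y + (J : 𝕜)⁻¹ • w = (J : 𝕜)⁻¹ • ∑ j ∈ Finset.range J, (y + z j) := by
      rw [Finset.sum_add_distrib, Finset.sum_const, Finset.card_range, smul_add,
        ← Nat.cast_smul_eq_nsmul 𝕜, smul_smul, inv_mul_cancel₀ hJ0, one_smul]
    rw [h5, map_smul_eq_mul, norm_inv, RCLike.norm_natCast, inv_mul_eq_div, div_le_iff₀ hJpos]
    have h6 : N (∑ j ∈ Finset.range J, (y + z j)) ≤ ∑ j ∈ Finset.range J, N (y + z j) := by
      apply Finset.le_sum_of_subadditive N (map_zero N).le (map_add_le_add N)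
    refine h6.trans ?_
    have h7 : ∑ j ∈ Finset.range J, N (y + z j) ≤ ∑ _j ∈ Finset.range J, (N y - ε) :=
      Finset.sum_le_sum (fun j _ => (hz3 j).le)
    rw [Finset.sum_const, Finset.card_range, nsmul_eq_mul] at h7
    linarith
  have h8 : 2 * b / J < ε := by
    rw [div_lt_iff₀ hJpos]
    rw [div_lt_iff₀ hε] at hJ
    linarith
  linarith

/-- the box of elements agreeing with `x` off `A` -/
def Box (x : Linf 𝕜) (A : Set ℕ) : Set (Linf 𝕜) := {w | ‖w‖ ≤ 1 ∧ ∀ m, m ∉ A → w m = x m}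

lemma step (N : Seminorm 𝕜 (Linf 𝕜)) {b : ℝ} (hb : 0 < b) (hN : ∀ x, N x ≤ b * ‖x‖)
    (x : Linf 𝕜) (hx : ‖x‖ ≤ 1) {A : Set ℕ} (hA : A.Infinite) {ε : ℝ} (hε : 0 < ε) (n₀ : ℕ) :
    ∃ (y : Linf 𝕜) (A' : Set ℕ), y ∈ Box x A ∧ A' ⊆ A ∧ A'.Infinite ∧ (∀ m ∈ A', n₀ ≤ m) ∧
      ∀ w ∈ Box y A', |N w - N y| ≤ ε := by
  -- nearly maximal point
  have hne : (N '' Box x A).Nonempty := ⟨N x, x, ⟨hx, fun _ _ => rfl⟩, rfl⟩
  have hbdd : BddAbove (N '' Box x A) := by
    refine ⟨b, ?_⟩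
    rintro _ ⟨w, hw, rfl⟩
    have := hN w
    have h1 := hw.1
    nlinarith
  obtain ⟨_, ⟨y, hy, rfl⟩, hlt⟩ := exists_lt_of_lt_csSup hne
    (show sSup (N '' Box x A) - ε < sSup (N '' Box x A) by linarith)
  obtain ⟨A', hA'1, hA'2, hA'3, hA'4⟩ := removal N hb hN y hA hε n₀
  refine ⟨y, A', hy, hA'1, hA'2, hA'3, ?_⟩
  intro w hw
  have hwx : w ∈ Box x A := by
    refine ⟨hw.1, fun m hm => ?_⟩
    rw [hw.2 m (fun h => hm (hA'1 h)), hy.2 m hm]
  have h1 : N w ≤ sSup (N '' Box x A) := le_csSup hbdd ⟨w, hwx, rfl⟩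
  have h2 : N y - ε ≤ N (y + (w - y)) := by
    apply hA'4
    · intro m hm
      rw [lp.coeFn_sub, Pi.sub_apply, hw.2 m hm, sub_self]
    · refine (norm_sub_le _ _).trans ?_
      linarith [hw.1, hy.1]
  rw [add_sub_cancel] at h2
  rw [abs_le]
  constructor <;> linarith

lemma not_LUR (N : Seminorm 𝕜 (Linf 𝕜)) (hN : IsEquivalentNorm 𝕜 N) : ¬ IsLUR 𝕜 N := by
  classical
  obtain ⟨a, b, ha, hb, hab⟩ := hN
  have hNb : ∀ x, N x ≤ b * ‖x‖ := fun x => (hab x).2
  intro hLUR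
  -- the sequence
  choose Y A' hY hA'1 hA'2 hA'3 hA'4 using
    fun (p : {p : Linf 𝕜 × Set ℕ // ‖p.1‖ ≤ 1 ∧ p.2.Infinite}) (n : ℕ) =>
      step N hb hNb p.1.1 p.2.1 p.2.2 (ε := 1/((n:ℝ)+1)) (by positivity) (n+1)
  let next : ℕ → {p : Linf 𝕜 × Set ℕ // ‖p.1‖ ≤ 1 ∧ p.2.Infinite} →
      {p : Linf 𝕜 × Set ℕ // ‖p.1‖ ≤ 1 ∧ p.2.Infinite} :=
    fun n p => ⟨(Y p n, A' p n), (hY p n).1, hA'2 p n⟩
  let init : {p : Linf 𝕜 × Set ℕ // ‖p.1‖ ≤ 1 ∧ p.2.Infinite} :=
    ⟨(0, univ), by simp, infinite_univ⟩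
  let P : ℕ → {p : Linf 𝕜 × Set ℕ // ‖p.1‖ ≤ 1 ∧ p.2.Infinite} :=
    fun n => Nat.rec init (fun n p => next n p) n
  let x : ℕ → Linf 𝕜 := fun n => (P n).1.1
  let A : ℕ → Set ℕ := fun n => (P n).1.2
  have hx1 : ∀ n, ‖x n‖ ≤ 1 := fun n => (P n).2.1
  have hAinf : ∀ n, (A n).Infinite := fun n => (P n).2.2
  have hxs : ∀ n, x (n+1) ∈ Box (x n) (A n) := fun n => hY (P n) n
  have hAs : ∀ n, A (n+1) ⊆ A n := fun n => hA'1 (P n) n
  have hAm : ∀ n, ∀ m ∈ A (n+1), n+1 ≤ m := fun n => hA'3 (P n) n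
  have hosc : ∀ n, ∀ w ∈ Box (x (n+1)) (A (n+1)), |N w - N (x (n+1))| ≤ 1/((n:ℝ)+1) :=
    fun n => hA'4 (P n) n
  have hAanti : Antitone A := antitone_nat_of_succ_le hAs
  -- agreement
  have hagree : ∀ n j m, m ∉ A n → x (n+j) m = x n m := by
    intro n j m hm
    induction j with
    | zero => rfl
    | succ j ih =>
      rw [← ih]
      apply (hxs (n+j)).2
      exact fun h => hm (hAanti (Nat.le_add_right n j) h)
  have hnot : ∀ m, m ∉ A (m+1) := by
    intro m hm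
    have := hAm m m hm
    omega
  let xi : Linf 𝕜 := ⟨fun m => x (m+1) m, memℓp_infty ⟨1, by
    rintro _ ⟨m, rfl⟩
    exact (lp.norm_apply_le_norm (by simp) (x (m+1)) m).trans (hx1 (m+1))⟩⟩
  have hxi_apply : ∀ m, xi m = x (m+1) m := fun m => rfl
  have hxi1 : ‖xi‖ ≤ 1 := by
    apply lp.norm_le_of_forall_le zero_le_one
    intro m
    rw [hxi_apply]
    exact (lp.norm_apply_le_norm (by simp) (x (m+1)) m).trans (hx1 (m+1))
  have hxi : ∀ n, xi ∈ Box (x n) (A n) := by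
    intro n
    refine ⟨hxi1, fun m hm => ?_⟩
    rw [hxi_apply]
    rcases le_total n (m+1) with h | h
    · obtain ⟨j, hj⟩ := Nat.exists_eq_add_of_le h
      rw [hj]
      exact hagree n j m hm
    · obtain ⟨j, hj⟩ := Nat.exists_eq_add_of_le h
      rw [hj]
      exact (hagree (m+1) j m (hnot m)).symm
  -- perturbations
  have hex : ∀ n, ∃ y ∈ Box (x (n+1)) (A (n+1)), 1 ≤ ‖y - xi‖ := by
    intro n
    obtain ⟨m, hm⟩ := (hAinf (n+1)).nonempty
    obtain ⟨u, hu1, hu2⟩ : ∃ u : 𝕜, ‖u‖ ≤ 1 ∧ 1 ≤ ‖u - xi m‖ := by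
      by_cases h0 : xi m = 0
      · exact ⟨1, by simp, by simp [h0]⟩
      · have hn : 0 < ‖xi m‖ := norm_pos_iff.2 h0
        have hn' : (‖xi m‖ : 𝕜) ≠ 0 := by exact_mod_cast hn.ne'
        refine ⟨-((‖xi m‖ : 𝕜)⁻¹ * xi m), ?_, ?_⟩
        · rw [norm_neg, norm_mul, norm_inv, RCLike.norm_ofReal, abs_of_pos hn,
            inv_mul_cancel₀ hn.ne']
        · have : -((‖xi m‖ : 𝕜)⁻¹ * xi m) - xi m = -(((‖xi m‖ : 𝕜)⁻¹ + 1) * xi m) := by ring
          rw [this, norm_neg, norm_mul]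
          have h2 : ‖(‖xi m‖ : 𝕜)⁻¹ + 1‖ = ‖xi m‖⁻¹ + 1 := by
            have : (‖xi m‖ : 𝕜)⁻¹ + 1 = ((‖xi m‖⁻¹ + 1 : ℝ) : 𝕜) := by push_cast; ring
            rw [this, RCLike.norm_ofReal, abs_of_pos (by positivity)]
          rw [h2, add_mul, inv_mul_cancel₀ hn.ne']
          linarith
    let y : Linf 𝕜 := ⟨Function.update (fun k => xi k) m u, memℓp_infty ⟨1, by
      rintro _ ⟨k, rfl⟩
      by_cases hk : k = m
      · subst hk; simpa using hu1
      · simp only [Function.update_of_ne hk]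
        exact (lp.norm_apply_le_norm (by simp) xi k).trans hxi1⟩⟩
    have hy_apply : ∀ k, y k = Function.update (fun k => xi k) m u k := fun k => rfl
    refine ⟨y, ⟨?_, ?_⟩, ?_⟩
    · apply lp.norm_le_of_forall_le zero_le_one
      intro k
      rw [hy_apply]
      by_cases hk : k = m
      · subst hk; simpa using hu1
      · rw [Function.update_of_ne hk]
        exact (lp.norm_apply_le_norm (by simp) xi k).trans hxi1
    · intro k hk
      rw [hy_apply, Function.update_of_ne (by rintro rfl; exact hk hm)]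
      exact (hxi (n+1)).2 k hk
    · refine le_trans ?_ (lp.norm_apply_le_norm (by simp) (y - xi) m)
      rw [lp.coeFn_sub, Pi.sub_apply, hy_apply, Function.update_self]
      exact hu2
  choose y hy1 hy2 using hex
  set M := N xi with hM
  have hosc2 : ∀ n, ∀ w ∈ Box (x (n+1)) (A (n+1)), |N w - M| ≤ 2 * (1/((n:ℝ)+1)) := by
    intro n w hw
    have h1 := hosc n w hw
    have h2 := hosc n xi (hxi (n+1))
    have h3 : N w - M = (N w - N (x (n+1))) - (N xi - N (x (n+1))) := by rw [hM]; ring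
    rw [h3]
    refine (abs_sub _ _).trans ?_
    linarith
  have hlim0 : Tendsto (fun n : ℕ => 2 * (1/((n:ℝ)+1))) atTop (𝓝 0) := by
    have := tendsto_one_div_add_atTop_nhds_zero_nat (𝕜 := ℝ)
    simpa using this.const_mul 2
  have hNy : Tendsto (fun n => N (y n)) atTop (𝓝 M) := by
    rw [tendsto_iff_norm_sub_tendsto_zero]
    exact squeeze_zero (fun n => norm_nonneg _) (fun n => hosc2 n (y n) (hy1 n)) hlim0
  have hNmid : Tendsto (fun n => N (y n + xi)) atTop (𝓝 (2 * M)) := by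
    have hmid : ∀ n, (2:𝕜)⁻¹ • (y n + xi) ∈ Box (x (n+1)) (A (n+1)) := by
      intro n
      constructor
      · rw [norm_smul, norm_inv, RCLike.norm_ofNat]
        have := norm_add_le (y n) xi
        have h1 := (hy1 n).1
        linarith
      · intro m hm
        rw [lp.coeFn_smul, Pi.smul_apply, lp.coeFn_add, Pi.add_apply, (hy1 n).2 m hm,
          (hxi (n+1)).2 m hm, ← two_mul, smul_eq_mul, ← mul_assoc, inv_mul_cancel₀ two_ne_zero,
          one_mul]
    have h1 : Tendsto (fun n => N ((2:𝕜)⁻¹ • (y n + xi))) atTop (𝓝 M) := by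
      rw [tendsto_iff_norm_sub_tendsto_zero]
      exact squeeze_zero (fun n => norm_nonneg _) (fun n => hosc2 n _ (hmid n)) hlim0
    have h2 := h1.const_mul 2
    refine h2.congr (fun n => ?_)
    rw [map_smul_eq_mul, norm_inv, RCLike.norm_ofNat]
    ring
  have hdist : ∀ n, a ≤ N (y n - xi) := by
    intro n
    have := (hab (y n - xi)).1
    nlinarith [hy2 n]
  have hMpos : 0 < M := by
    by_contra hcon
    have hM0 : M = 0 := le_antisymm (not_lt.1 hcon) (apply_nonneg N xi)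
    have h1 : ∀ n, a ≤ N (y n) := by
      intro n
      have h2 := map_sub_le_add N (y n) xi
      have h3 := hdist n
      have h4 : N xi = 0 := hM0
      linarith
    have := ge_of_tendsto' hNy h1
    linarith
  have hNypos : ∀ᶠ n in atTop, 0 < N (y n) := hNy.eventually (lt_mem_nhds hMpos)
  obtain ⟨n₀, hn₀⟩ := eventually_atTop.1 hNypos
  -- normalised sequences
  let X : Linf 𝕜 := ((M:𝕜))⁻¹ • xi
  let Z : ℕ → Linf 𝕜 := fun n => ((N (y (n + n₀)) : ℝ) : 𝕜)⁻¹ • y (n + n₀)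
  have hpos : ∀ n, 0 < N (y (n+n₀)) := fun n => hn₀ _ (Nat.le_add_left _ _)
  have hX : N X = 1 := by
    simp only [X]
    rw [map_smul_eq_mul, norm_inv, RCLike.norm_ofReal, abs_of_pos hMpos, ← hM,
      inv_mul_cancel₀ hMpos.ne']
  have hZ : ∀ n, N (Z n) = 1 := by
    intro n
    simp only [Z]
    rw [map_smul_eq_mul, norm_inv, RCLike.norm_ofReal, abs_of_pos (hpos n),
      inv_mul_cancel₀ (hpos n).ne']
  have hNy' : Tendsto (fun n => N (y (n+n₀))) atTop (𝓝 M) := hNy.comp (tendsto_add_atTop_nat n₀)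
  have hNmid' : Tendsto (fun n => N (y (n+n₀) + xi)) atTop (𝓝 (2 * M)) :=
    hNmid.comp (tendsto_add_atTop_nat n₀)
  -- error term
  have herr : Tendsto (fun n => |(N (y (n+n₀)))⁻¹ - M⁻¹| * N (y (n+n₀))) atTop (𝓝 0) := by
    have h1 : Tendsto (fun n => (N (y (n+n₀)))⁻¹ - M⁻¹) atTop (𝓝 (M⁻¹ - M⁻¹)) :=
      (hNy'.inv₀ hMpos.ne').sub_const _
    rw [sub_self] at h1
    have h2 := (h1.abs).mul hNy'
    simpa using h2
  have hdec : ∀ (n : ℕ) (c : 𝕜), Z n + c • X = (((N (y (n+n₀)))⁻¹ - M⁻¹ : ℝ) : 𝕜) • y (n+n₀)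
      + ((M : 𝕜)⁻¹) • (y (n+n₀) + c • xi) := by
    intro n c
    simp only [Z, X]
    rw [smul_add, ← add_assoc, ← add_smul, smul_comm c]
    congr 2
    push_cast
    ring
  have hbound : ∀ (n : ℕ) (c : 𝕜), |N (Z n + c • X) - M⁻¹ * N (y (n+n₀) + c • xi)| ≤
      |(N (y (n+n₀)))⁻¹ - M⁻¹| * N (y (n+n₀)) := by
    intro n c
    have h1 : N ((((N (y (n+n₀)))⁻¹ - M⁻¹ : ℝ) : 𝕜) • y (n+n₀)) =
        |(N (y (n+n₀)))⁻¹ - M⁻¹| * N (y (n+n₀)) := by
      rw [map_smul_eq_mul, RCLike.norm_ofReal]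
    have h2 : N (((M : 𝕜)⁻¹) • (y (n+n₀) + c • xi)) = M⁻¹ * N (y (n+n₀) + c • xi) := by
      rw [map_smul_eq_mul, norm_inv, RCLike.norm_ofReal, abs_of_pos hMpos]
    rw [← h1, ← h2, hdec n c]
    have h3 := abs_sub_map_le_sub N
      ((((N (y (n+n₀)))⁻¹ - M⁻¹ : ℝ) : 𝕜) • y (n+n₀) + ((M : 𝕜)⁻¹) • (y (n+n₀) + c • xi))
      (((M : 𝕜)⁻¹) • (y (n+n₀) + c • xi))
    rw [add_sub_cancel_right] at h3
    exact h3
  have hsum : Tendsto (fun n => N (Z n + X)) atTop (𝓝 2) := by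
    have h1 : Tendsto (fun n => M⁻¹ * N (y (n+n₀) + xi)) atTop (𝓝 2) := by
      have := hNmid'.const_mul M⁻¹
      have h2 : M⁻¹ * (2 * M) = 2 := by field_simp
      rwa [h2] at this
    have h2 : Tendsto (fun n => N (Z n + X) - M⁻¹ * N (y (n+n₀) + xi)) atTop (𝓝 0) := by
      rw [tendsto_zero_iff_abs_tendsto_zero]
      refine squeeze_zero (fun n => abs_nonneg _) (fun n => ?_) herr
      have := hbound n 1
      simpa using this
    have h3 := h1.add h2
    rw [add_zero] at h3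
    refine h3.congr (fun n => ?_)
    ring
  have hsub := hLUR X Z hX hZ hsum
  have hlow : ∀ n, M⁻¹ * a - |(N (y (n+n₀)))⁻¹ - M⁻¹| * N (y (n+n₀)) ≤ N (Z n - X) := by
    intro n
    have h1 := hbound n (-1)
    rw [neg_one_smul, neg_one_smul, ← sub_eq_add_neg, ← sub_eq_add_neg] at h1
    rw [abs_le] at h1
    have h2 := mul_le_mul_of_nonneg_left (hdist (n+n₀)) (inv_pos.2 hMpos).le
    linarith [h1.1]
  have hlim := le_of_tendsto_of_tendsto' (tendsto_const_nhds.sub herr) hsub hlow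
  have : 0 < M⁻¹ * a := by positivity
  linarith

end NoLUR

section MBasis

variable (𝕜 : Type*) [RCLike 𝕜]

/-- index set: the unit ball of bounded sequences times the naturals -/
abbrev Idx := {x : Linf 𝕜 // ‖x‖ ≤ 1} × ℕ

/-- summable families over `Idx` -/
abbrev Lone := lp (fun _ : Idx 𝕜 => 𝕜) 1

variable {𝕜}

/-- functional on `Lone` given by a bounded family of coefficients -/
noncomputable def pairing (a : Idx 𝕜 → 𝕜) (C : ℝ) (ha : ∀ i, ‖a i‖ ≤ C) : Lone 𝕜 →L[𝕜] 𝕜 :=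
  LinearMap.mkContinuous
    { toFun := fun z => ∑' i, a i * z i
      map_add' := by
        intro z w
        have hs : ∀ z : Lone 𝕜, Summable (fun i => a i * z i) := by
          intro z
          have h1 : Summable (fun i => ‖z i‖) := by
            simpa using (lp.memℓp z).summable (by norm_num)
          apply Summable.of_norm_bounded (h1.mul_left C)
          intro i
          rw [norm_mul]
          exact mul_le_mul_of_nonneg_right (ha i) (norm_nonneg _)
        rw [← (hs z).tsum_add (hs w)]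
        apply tsum_congr
        intro i
        rw [lp.coeFn_add, Pi.add_apply, mul_add]
      map_smul' := by
        intro c z
        rw [RingHom.id_apply, smul_eq_mul, ← tsum_mul_left]
        apply tsum_congr
        intro i
        rw [lp.coeFn_smul, Pi.smul_apply, smul_eq_mul]
        ring } C (by
      intro z
      have h1 : Summable (fun i => ‖z i‖) := by
        simpa using (lp.memℓp z).summable (by norm_num)
      have h2 : ‖z‖ = ∑' i, ‖z i‖ := by
        rw [lp.norm_eq_tsum_rpow (by norm_num)]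
        simp
      change ‖∑' i, a i * z i‖ ≤ C * ‖z‖
      rw [h2, ← tsum_mul_left]
      apply tsum_of_norm_bounded (h1.mul_left C).hasSum
      intro i
      rw [norm_mul]
      exact mul_le_mul_of_nonneg_right (ha i) (norm_nonneg _))

lemma pairing_apply (a : Idx 𝕜 → 𝕜) (C : ℝ) (ha : ∀ i, ‖a i‖ ≤ C) (z : Lone 𝕜) :
    pairing a C ha z = ∑' i, a i * z i := rfl

lemma pairing_single [DecidableEq (Idx 𝕜)] (a : Idx 𝕜 → 𝕜) (C : ℝ) (ha : ∀ i, ‖a i‖ ≤ C)
    (i : Idx 𝕜) (c : 𝕜) : pairing a C ha (lp.single 1 i c) = a i * c := by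
  rw [pairing_apply, tsum_eq_single i]
  · rw [lp.single_apply_self]
  · intro j hj
    rw [lp.single_apply_ne _ _ _ hj, mul_zero]

/-- the tail of a bounded sequence -/
noncomputable def tail (k : ℕ) (x : Linf 𝕜) : Linf 𝕜 :=
  ⟨fun n => if n < k then 0 else x n, memℓp_infty ⟨‖x‖, by
    rintro _ ⟨n, rfl⟩
    dsimp only
    split_ifs
    · simp
    · exact lp.norm_apply_le_norm (by simp) x n⟩⟩

lemma tail_apply (k : ℕ) (x : Linf 𝕜) (n : ℕ) : tail k x n = if n < k then 0 else x n := rfl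

/-- coefficients -/
noncomputable def coef (n : ℕ) (i : Idx 𝕜) : 𝕜 := if n < i.2 then 0 else -(2^i.2 * i.1.1 n)

lemma coef_le (n : ℕ) (i : Idx 𝕜) : ‖coef n i‖ ≤ 2^n := by
  unfold coef
  split_ifs with h
  · rw [norm_zero]; positivity
  · rw [norm_neg, norm_mul, norm_pow, RCLike.norm_ofNat]
    have h1 : ‖i.1.1 n‖ ≤ 1 := (lp.norm_apply_le_norm (by simp) i.1.1 n).trans i.1.2
    have h2 : (2:ℝ)^i.2 ≤ 2^n := pow_le_pow_right₀ (by norm_num) (not_lt.1 h)
    calc (2:ℝ)^i.2 * ‖i.1.1 n‖ ≤ 2^n * 1 := by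
          apply mul_le_mul h2 h1 (norm_nonneg _) (by positivity)
      _ = 2^n := mul_one _

open Classical in
/-- the vectors of the basis -/
noncomputable def vec : ℕ ⊕ Idx 𝕜 → Linf 𝕜 × Lone 𝕜
  | Sum.inl n => (lp.single ∞ n 1, 0)
  | Sum.inr i => (tail i.2 i.1.1, lp.single 1 i ((2^i.2 : 𝕜)⁻¹))

/-- the functionals of the basis -/
noncomputable def func : ℕ ⊕ Idx 𝕜 → ((Linf 𝕜 × Lone 𝕜) →L[𝕜] 𝕜)
  | Sum.inl n => (lp.evalCLM 𝕜 (fun _ : ℕ => 𝕜) ∞ n).comp (ContinuousLinearMap.fst 𝕜 _ _) +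
      (pairing (coef n) (2^n) (coef_le n)).comp (ContinuousLinearMap.snd 𝕜 _ _)
  | Sum.inr i => (2^i.2 : 𝕜) •
      (lp.evalCLM 𝕜 (fun _ : Idx 𝕜 => 𝕜) 1 i).comp (ContinuousLinearMap.snd 𝕜 _ _)

lemma func_inl (n : ℕ) (p : Linf 𝕜 × Lone 𝕜) :
    func (Sum.inl n) p = p.1 n + pairing (coef n) (2^n) (coef_le n) p.2 := rfl

lemma func_inr (i : Idx 𝕜) (p : Linf 𝕜 × Lone 𝕜) :
    func (Sum.inr i) p = 2^i.2 * p.2 i := rfl

theorem isMarkushevichBasis : IsMarkushevichBasis 𝕜 (vec (𝕜 := 𝕜)) func where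
  apply_self := by
    classical
    rintro (n | i)
    · rw [func_inl]
      simp only [vec, map_zero, add_zero]
      convert lp.single_apply_self (E := fun _ : ℕ => 𝕜) ∞ n (1:𝕜)
    · rw [func_inr]
      simp only [vec]
      have h : (2^i.2 : 𝕜) ≠ 0 := pow_ne_zero _ two_ne_zero
      have h2 := lp.single_apply_self (E := fun _ : Idx 𝕜 => 𝕜) 1 i ((2^i.2 : 𝕜)⁻¹)
      calc _ = 2^i.2 * (2^i.2 : 𝕜)⁻¹ := by
            congr 1
        _ = 1 := mul_inv_cancel₀ h
  apply_ne := by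
    classical
    rintro (n | i) (m | j) hij
    · rw [func_inl]
      simp only [vec, map_zero, add_zero]
      have hnm : n ≠ m := fun h => hij (by rw [h])
      convert lp.single_apply_ne (E := fun _ : ℕ => 𝕜) ∞ m (1:𝕜) hnm
    · rw [func_inl]
      simp only [vec]
      have h1 : pairing (coef n) (2^n) (coef_le n) (lp.single 1 j ((2^j.2 : 𝕜)⁻¹))
          = coef n j * (2^j.2 : 𝕜)⁻¹ := pairing_single _ _ _ _ _
      have h2 : tail j.2 j.1.1 n + coef n j * (2^j.2 : 𝕜)⁻¹ = 0 := by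
        rw [tail_apply]
        unfold coef
        split_ifs with h
        · simp
        · have h : (2^j.2 : 𝕜) ≠ 0 := pow_ne_zero _ two_ne_zero
          field_simp
          ring
      calc _ = tail j.2 j.1.1 n + coef n j * (2^j.2 : 𝕜)⁻¹ := by
            congr 1
        _ = 0 := h2
    · rw [func_inr]
      simp [vec]
    · rw [func_inr]
      simp only [vec]
      have hij' : i ≠ j := fun h => hij (by rw [h])
      have h2 := lp.single_apply_ne (E := fun _ : Idx 𝕜 => 𝕜) 1 j ((2^j.2 : 𝕜)⁻¹) hij'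
      calc _ = 2^i.2 * (0 : 𝕜) := by
            congr 1
        _ = 0 := mul_zero _
  total := by
    rintro ⟨x, z⟩ h
    have hz : z = 0 := by
      ext i
      have := h (Sum.inr i)
      rw [func_inr] at this
      have h2 : (2^i.2 : 𝕜) ≠ 0 := pow_ne_zero _ two_ne_zero
      simpa [h2] using this
    subst hz
    have hx : x = 0 := by
      ext n
      have := h (Sum.inl n)
      rw [func_inl] at this
      simpa using this
    rw [hx]
    rfl
  dense := by
    classical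
    set S : Submodule 𝕜 (Linf 𝕜 × Lone 𝕜) := (Submodule.span 𝕜 (range (vec (𝕜 := 𝕜)))).topologicalClosure
      with hS
    have hScl : IsClosed (S : Set (Linf 𝕜 × Lone 𝕜)) := Submodule.isClosed_topologicalClosure _
    have hvec : ∀ i, vec i ∈ S := fun i =>
      Submodule.le_topologicalClosure _ (Submodule.subset_span ⟨i, rfl⟩)
    suffices h : ∀ p, p ∈ S by
      exact eq_univ_of_forall h
    -- finite sequences
    have h1 : ∀ (k : ℕ) (x : Linf 𝕜), ((x - tail k x, 0) : Linf 𝕜 × Lone 𝕜) ∈ S := by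
      intro k x
      have : ((x - tail k x, 0) : Linf 𝕜 × Lone 𝕜) =
          ∑ n ∈ Finset.range k, x n • (vec (Sum.inl n) : Linf 𝕜 × Lone 𝕜) := by
        apply Prod.ext
        · rw [Prod.fst_sum]
          ext m
          rw [lp.coeFn_sum, Finset.sum_apply, lp.coeFn_sub, Pi.sub_apply, tail_apply]
          have : ∀ n, (x n • (vec (Sum.inl n) : Linf 𝕜 × Lone 𝕜)).1 m = if m = n then x n else 0 := by
            intro n
            change (x n • (lp.single ∞ n 1 : Linf 𝕜)) m = _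
            rw [lp.coeFn_smul, Pi.smul_apply]
            by_cases hmn : m = n
            · subst hmn
              rw [if_pos rfl]
              have := lp.single_apply_self (E := fun _ : ℕ => 𝕜) ∞ m (1:𝕜)
              rw [smul_eq_mul]
              calc _ = x m * 1 := by congr 1
                _ = x m := mul_one _
            · rw [if_neg hmn]
              have := lp.single_apply_ne (E := fun _ : ℕ => 𝕜) ∞ n (1:𝕜) hmn
              rw [smul_eq_mul]
              calc _ = x n * 0 := by congr 1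
                _ = 0 := mul_zero _
          simp_rw [this]
          rw [Finset.sum_ite_eq]
          by_cases hm : m < k
          · simp [hm]
          · simp [hm]
        · rw [Prod.snd_sum]
          symm
          apply Finset.sum_eq_zero
          intro n _
          change x n • (0 : Lone 𝕜) = 0
          rw [smul_zero]
      rw [this]
      exact S.sum_mem (fun n _ => S.smul_mem _ (hvec _))
    -- points of the ball, with perturbation
    have h2 : ∀ (γ : {x : Linf 𝕜 // ‖x‖ ≤ 1}) (k : ℕ),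
        ((γ.1, lp.single 1 (γ, k) ((2^k : 𝕜)⁻¹)) : Linf 𝕜 × Lone 𝕜) ∈ S := by
      intro γ k
      have h3 := S.add_mem (h1 k γ.1) (hvec (Sum.inr (γ, k)))
      have h4 : ((γ.1 - tail k γ.1, 0) : Linf 𝕜 × Lone 𝕜) + vec (Sum.inr (γ, k))
          = (γ.1, lp.single 1 (γ, k) ((2^k : 𝕜)⁻¹)) := by
        apply Prod.ext
        · change γ.1 - tail k γ.1 + tail k γ.1 = γ.1
          rw [sub_add_cancel]
        · change (0 : Lone 𝕜) + _ = _
          rw [zero_add]
          rfl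
      rwa [h4] at h3
    have h3 : ∀ γ : {x : Linf 𝕜 // ‖x‖ ≤ 1}, ((γ.1, 0) : Linf 𝕜 × Lone 𝕜) ∈ S := by
      intro γ
      apply hScl.mem_of_tendsto (b := atTop)
        (f := fun k : ℕ => ((γ.1, lp.single 1 (γ, k) ((2^k : 𝕜)⁻¹)) : Linf 𝕜 × Lone 𝕜))
      · apply Tendsto.prodMk_nhds tendsto_const_nhds
        rw [tendsto_zero_iff_norm_tendsto_zero]
        have : ∀ k : ℕ, ‖(lp.single 1 (γ, k) ((2^k : 𝕜)⁻¹) : Lone 𝕜)‖ = (1/2 : ℝ)^k := by
          intro k
          rw [lp.norm_single (by norm_num), norm_inv, norm_pow, RCLike.norm_ofNat]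
          simp
        simp_rw [this]
        exact tendsto_pow_atTop_nhds_zero_of_lt_one (by norm_num) (by norm_num)
      · exact Eventually.of_forall (fun k => h2 γ k)
    have h4 : ∀ x : Linf 𝕜, ((x, 0) : Linf 𝕜 × Lone 𝕜) ∈ S := by
      intro x
      by_cases hx : x = 0
      · rw [hx]; exact S.zero_mem
      have hxn : 0 < ‖x‖ := norm_pos_iff.2 hx
      have hx' : (‖x‖ : 𝕜) ≠ 0 := by exact_mod_cast hxn.ne'
      have h5 := h3 ⟨((‖x‖ : 𝕜))⁻¹ • x, by
        rw [norm_smul, norm_inv, RCLike.norm_ofReal, abs_of_pos hxn, inv_mul_cancel₀ hxn.ne']⟩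
      have h6 := S.smul_mem (‖x‖ : 𝕜) h5
      rw [Prod.smul_mk, smul_smul, mul_inv_cancel₀ hx', one_smul, smul_zero] at h6
      exact h6
    have h5 : ∀ (i : Idx 𝕜) (c : 𝕜), ((0, lp.single 1 i c) : Linf 𝕜 × Lone 𝕜) ∈ S := by
      intro i c
      have h6 := S.sub_mem (h2 i.1 i.2) (h4 i.1.1)
      have h7 := S.smul_mem (c * 2^i.2) h6
      have h8 : (c * 2^i.2 : 𝕜) • (((i.1.1, lp.single 1 (i.1, i.2) ((2^i.2 : 𝕜)⁻¹)) : Linf 𝕜 × Lone 𝕜)
          - (i.1.1, 0)) = (0, lp.single 1 i c) := by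
        rw [Prod.mk_sub_mk, sub_self, sub_zero, Prod.smul_mk, smul_zero, ← lp.single_smul,
          smul_eq_mul]
        have h : (2^i.2 : 𝕜) ≠ 0 := pow_ne_zero _ two_ne_zero
        rw [mul_assoc, mul_inv_cancel₀ h, mul_one]
      rwa [h8] at h7
    have h6 : ∀ z : Lone 𝕜, ((0, z) : Linf 𝕜 × Lone 𝕜) ∈ S := by
      intro z
      have hs := lp.hasSum_single (by norm_num) z
      apply hScl.mem_of_tendsto (b := atTop)
        (f := fun s : Finset (Idx 𝕜) => ((0, ∑ i ∈ s, lp.single 1 i (z i)) : Linf 𝕜 × Lone 𝕜))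
      · exact tendsto_const_nhds.prodMk_nhds hs
      · refine Eventually.of_forall (fun s => ?_)
        have : ((0, ∑ i ∈ s, lp.single 1 i (z i)) : Linf 𝕜 × Lone 𝕜)
            = ∑ i ∈ s, ((0, lp.single 1 i (z i)) : Linf 𝕜 × Lone 𝕜) := by
          apply Prod.ext
          · rw [Prod.fst_sum]; simp
          · rw [Prod.snd_sum]
        rw [this]
        exact S.sum_mem (fun i _ => h5 i _)
    rintro ⟨x, z⟩
    have h7 := S.add_mem (h4 x) (h6 z)
    rwa [Prod.mk_add_mk, add_zero, zero_add] at h7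

end MBasis

/-- There is a Banach space (over the reals or the complexes) with an extended Markushevich
basis on which no equivalent norm is locally uniformly convex. -/
theorem result (𝕜 : Type) [RCLike 𝕜] :
    ∃ (E : Type) (_ : NormedAddCommGroup E) (_ : NormedSpace 𝕜 E) (_ : CompleteSpace E),
      (∃ (ι : Type) (x : ι → E) (f : ι → (E →L[𝕜] 𝕜)), IsMarkushevichBasis 𝕜 x f) ∧
      ∀ N : Seminorm 𝕜 E, IsEquivalentNorm 𝕜 N → ¬ IsLUR 𝕜 N := by
  refine ⟨Linf 𝕜 × Lone 𝕜, inferInstance, inferInstance, inferInstance,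
    ⟨_, vec, func, isMarkushevichBasis⟩, ?_⟩
  intro N hN hLUR
  let N' : Seminorm 𝕜 (Linf 𝕜) := N.comp (LinearMap.inl 𝕜 (Linf 𝕜) (Lone 𝕜))
  have hN'_apply : ∀ x, N' x = N (x, 0) := fun x => rfl
  apply not_LUR N'
  · obtain ⟨a, b, ha, hb, hab⟩ := hN
    refine ⟨a, b, ha, hb, fun x => ?_⟩
    have := hab (x, 0)
    rw [Prod.norm_mk, norm_zero, max_eq_left (norm_nonneg _)] at this
    exact this
  · intro x y hx hy hxy
    have h := hLUR (x, 0) (fun n => (y n, 0)) hx hy (by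
      refine hxy.congr (fun n => ?_)
      rw [hN'_apply, Prod.mk_add_mk, add_zero])
    refine h.congr (fun n => ?_)
    rw [hN'_apply, Prod.mk_sub_mk, sub_zero]

end Pool.Agent.Results.MP_ea77cd_an.MBasisNoLUR
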